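import Pool.Agent.Helper19.SQ.GoalsH

/-!
Project SQ (MP_bb32d1_al), packet LEXCOL (helper89).
-/

namespace Pool.Agent.Helper89.SQ

open Pool.Agent.Helper19.SQ

noncomputable section

section

variable {B : Type} [Ring B] [Algebra ℂ B]

theorem range_prod_succ (f : ℕ → B) (n : ℕ) :
    ((List.range (n + 1)).map f).prod = ((List.range n).map f).prod * f n := by
  rw [List.range_succ, List.map_append, List.prod_append]
  simp

theorem comm_prod {x : B} (f : ℕ → B) (n : ℕ) (h : ∀ i < n, Commute x (f i)) :
    Commute x ((List.range n).map f).prod := by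
  induction n with
  | zero => simp
  | succ n ih =>
    rw [range_prod_succ]
    exact (ih fun i hi => h i (by omega)).mul_right (h n (by omega))

theorem split_prod (f g : ℕ → B) (m : ℕ)
    (h : ∀ i k, i < k → k < m → Commute (g i) (f k)) :
    ((List.range m).map fun i => f i * g i).prod
      = ((List.range m).map f).prod * ((List.range m).map g).prod := by
  induction m with
  | zero => simp
  | succ m ih =>
    rw [range_prod_succ, range_prod_succ f, range_prod_succ g,
      ih fun i k hik hk => h i k hik (by omega)]
    have hc : Commute (f m) ((List.range m).map g).prod :=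
      comm_prod g m fun i hi => (h i m hi (by omega)).symm
    have hc' := hc.eq
    simp only [mul_assoc]
    rw [← mul_assoc ((List.range m).map g).prod (f m) (g m), ← hc']
    simp only [mul_assoc]

theorem rowM_succ (N : ℕ) (q : ℂ) (E : ℕ → B) (b : ℕ → ℕ → ℕ) (i : ℕ) (hi : i ≤ N) :
    rowM (N + 1) q E b i = rowM N q E b i * rv q E i (N + 1) ^ b i (N + 1) := by
  unfold rowM
  rw [show N + 1 - i = (N - i) + 1 by omega, range_prod_succ]
  have e : i + 1 + (N - i) = N + 1 := by omega
  rw [e]

theorem mon_succ {q : ℂ} {E : ℕ → B} (hR : RootRel q E) (b : ℕ → ℕ → ℕ) (N : ℕ) :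
    mon (N + 1) q E b = mon N q E b * colM q E b (N + 1) := by
  have h1 : mon (N + 1) q E b = ((List.range (N + 1)).map fun i =>
      rowM N q E b i * rv q E i (N + 1) ^ b i (N + 1)).prod := by
    unfold mon
    congr 1
    apply List.map_congr_left
    intro i hi
    rw [List.mem_range] at hi
    exact rowM_succ N q E b i (by omega)
  rw [h1, split_prod (fun i => rowM N q E b i) (fun i => rv q E i (N + 1) ^ b i (N + 1)) (N + 1)]
  · rw [range_prod_succ (fun i => rowM N q E b i)]
    have h0 : rowM N q E b N = 1 := by simp [rowM]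
    rw [h0, mul_one]
    rfl
  · intro i k hik hk
    show Commute (rv q E i (N + 1) ^ b i (N + 1)) (rowM N q E b k)
    unfold rowM
    apply comm_prod
    intro d hd
    apply Commute.pow_pow
    exact hR.R8 i (N + 1) k (k + 1 + d) hik (by omega) (by omega)

theorem mon_eq_col {q : ℂ} {E : ℕ → B} (hR : RootRel q E) (b : ℕ → ℕ → ℕ) (N : ℕ) :
    mon N q E b = ((List.range N).map fun j => colM q E b (j + 1)).prod := by
  induction N with
  | zero => simp [mon]
  | succ N ih => rw [mon_succ hR, ih, range_prod_succ]

end

/-- LEXCOL. -/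
theorem s_lexcol (hroot : S_ROOT) : S_LEXCOL := by
  intro B _ _ N q E hq hq2 hE b
  exact mon_eq_col (hroot B q E hq hq2 hE) b N

end

end Pool.Agent.Helper89.SQ
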