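import Pool.Agent.Helper19.SQ.GoalsC

/-!
# Project SQ (MP_bb32d1_al), packet SPN: words in the `e_dc` are enough
-/

namespace Pool.Agent.Helper89.SQ.Spn

open Pool.Agent.Helper19.SQ

noncomputable section

variable {l n : ℕ} [NeZero l] {T : Type} [AddCommGroup T] [Module ℂ T] (C : Cnt l n T)

/-- the space `K m`. -/
def KS (d : ZMod l) (m : ZMod l → ℤ) (x : T) : Prop :=
  x ∈ C.gr m ∧ ∀ u : List (Lt3 l), (∀ a ∈ u, a.1 ≠ d) → m + dWt d u = nd n d → dOp C d u x = 0

omit [NeZero l] in
theorem dWt_cat (d : ZMod l) (u : List (Lt3 l)) (a : Lt3 l) :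
    dWt d (u ++ [a]) = dWt d u + (sg d - sg a.1) := by
  simp [dWt]

theorem dOp_cat (d : ZMod l) (u : List (Lt3 l)) (a : Lt3 l) :
    dOp C d (u ++ [a]) = dOp C d u * C.e d a.1 a.2.1 a.2.2 := by
  simp [dOp]

theorem ks_letter {d : ZMod l} {m : ZMod l → ℤ} {x : T} (hx : KS C d m x) {c : ZMod l}
    (hc : c ≠ d) (i : ℕ) (j : ℤ) (u : List (Lt3 l)) (hu : ∀ a ∈ u, a.1 ≠ d)
    (hw : m + dWt d u + sg d - sg c = nd n d) : dOp C d u (C.e d c i j x) = 0 := by
  have h := hx.2 (u ++ [(c, i, j)]) (by
    intro a ha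
    rcases List.mem_append.1 ha with ha | ha
    · exact hu a ha
    · rw [List.mem_singleton] at ha
      rw [ha]
      exact hc) (by
    rw [dWt_cat, ← hw]
    abel)
  rw [dOp_cat] at h
  exact h

theorem ks_zero {d : ZMod l} {m : ZMod l → ℤ} {x : T} (hx : KS C d m x) {c : ZMod l}
    (hc : c ≠ d) (i : ℕ) (j : ℤ) : KS C d (m + sg d - sg c) (C.e d c i j x) := by
  refine ⟨C.e_gr d c i j (Ne.symm hc) m x hx.1, fun u hu hw => ?_⟩
  refine ks_letter C hx hc i j u hu ?_
  rw [← hw]
  abel

theorem ks_nd {d : ZMod l} {x : T} (hx : KS C d (nd n d) x) : x = 0 := by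
  have h := hx.2 [] (by simp) (by simp [dWt])
  simpa [dOp] using h

theorem claim (hG : S_GBR) (hl : 3 ≤ l) (d : ZMod l) (u : List (Lt3 l)) :
    (∀ a ∈ u, a.1 ≠ d) →
    (∀ (m : ZMod l → ℤ) (x : T), KS C d m x → ∀ (a b : ZMod l) (r : ℕ) (s : ℤ), a ≠ b → a ≠ d →
      m + sg a - sg b + dWt d u = nd n d → dOp C d u (C.e a b r s x) = 0) ∧
    (∀ (m : ZMod l → ℤ) (x : T), KS C d m x → ∀ (a : ZMod l) (r r' : ℕ) (s s' : ℤ), a ≠ d →
      m + dWt d u = nd n d →
      dOp C d u ((C.e d a r s * C.e a d r' s' - C.e a d r' s' * C.e d a r s) x) = 0) := by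
  induction u using List.reverseRecOn with
  | nil =>
    intro _
    refine ⟨?_, ?_⟩
    · intro m x hx a b r s hab had hw
      have hm : m a = -1 := by
        have h := congrFun hw a
        simp only [Pi.add_apply, Pi.sub_apply, dWt, List.map_nil, List.sum_nil, Pi.zero_apply,
          sg, nd, if_true, if_neg hab, if_neg had] at h
        linarith
      have hb : C.gr m = ⊥ := C.bot m (fun h => by have := h.1 a; omega)
      have hx0 : x = 0 := by
        have := hx.1
        rw [hb] at this
        exact (Submodule.mem_bot ℂ).1 this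
      rw [hx0, map_zero, map_zero]
    · intro m x hx a r r' s s' had hw
      have hm : m = nd n d := by
        rw [← hw]
        simp [dWt]
      subst hm
      rw [ks_nd C hx, map_zero, map_zero]
  | append_singleton u' p ih =>
    intro hu
    obtain ⟨c, i, j⟩ := p
    have hc : c ≠ d := hu (c, i, j) (by simp)
    have hu' : ∀ a ∈ u', a.1 ≠ d := fun a ha => hu a (List.mem_append.2 (Or.inl ha))
    obtain ⟨ih2, ih3⟩ := ih hu'
    refine ⟨?_, ?_⟩
    · intro m x hx a b r s hab had hw
      rw [dWt_cat] at hw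
      simp only at hw
      rw [dOp_cat]
      have e1 : C.e d c i j (C.e a b r s x) = C.e a b r s (C.e d c i j x) +
          (C.e d c i j * C.e a b r s - C.e a b r s * C.e d c i j) x := by
        simp [LinearMap.sub_apply, Module.End.mul_apply]
      rw [Module.End.mul_apply, e1, map_add]
      rw [ih2 (m + sg d - sg c) (C.e d c i j x) (ks_zero C hx hc i j) a b r s hab had (by
        rw [← hw]; abel), zero_add]
      by_cases hca : c = a
      · subst hca
        by_cases hbd : b = d
        · subst hbd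
          exact ih3 m x hx c i r j s had (by rw [← hw]; abel)
        · rw [C.mul d c b i j r s (Ne.symm hc) hab (Ne.symm hbd)]
          exact ks_letter C hx hbd _ _ u' hu' (by rw [← hw]; abel)
      · by_cases hbd : b = d
        · subst hbd
          have h := C.mul a b c r s i j had (Ne.symm hc) (Ne.symm hca)
          have e2 : C.e b c i j * C.e a b r s - C.e a b r s * C.e b c i j =
              - C.e a c (r + i) (s + j) := by
            rw [← h]
            abel
          rw [e2, LinearMap.neg_apply, map_neg, ih2 m x hx a c (r + i) (s + j) (Ne.symm hca) had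
            (by rw [← hw]; abel), neg_zero]
        · rw [C.com d c a b i j r s (Ne.symm hc) hab hca (Ne.symm hbd), sub_self,
            LinearMap.zero_apply, map_zero]
    · intro m x hx a r r' s s' had hw
      rw [dWt_cat] at hw
      simp only at hw
      rw [dOp_cat]
      set g : Module.End ℂ T := C.e d a r s * C.e a d r' s' - C.e a d r' s' * C.e d a r s with hg
      have hg' := hG l n T C hl d a had r r' s s' g hg
      have e1 : C.e d c i j (g x) = g (C.e d c i j x) +
          (C.e d c i j * g - g * C.e d c i j) x := by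
        simp only [LinearMap.sub_apply, Module.End.mul_apply]
        abel
      rw [Module.End.mul_apply, e1, map_add]
      rw [ih3 (m + sg d - sg c) (C.e d c i j x) (ks_zero C hx hc i j) a r r' s s' had (by
        rw [← hw]; abel), zero_add]
      have hl2 := ks_letter C hx hc (i + r + r') (j + s + s') u' hu' (by rw [← hw]; abel)
      by_cases hca : c = a
      · subst hca
        rw [hg'.2 i j, LinearMap.smul_apply, map_smul, hl2, smul_zero]
      · rw [hg'.1 c i j hca hc, LinearMap.neg_apply, map_neg, hl2, neg_zero]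

/-- `K` is stable. -/
theorem ks_stable (hG : S_GBR) (hl : 3 ≤ l) {d : ZMod l} {m : ZMod l → ℤ} {x : T}
    (hx : KS C d m x) {a b : ZMod l} (hab : a ≠ b) (r : ℕ) (s : ℤ) :
    KS C d (m + sg a - sg b) (C.e a b r s x) := by
  by_cases had : a = d
  · subst had
    exact ks_zero C hx (Ne.symm hab) r s
  · refine ⟨C.e_gr a b r s hab m x hx.1, fun u hu hw => ?_⟩
    exact (claim C hG hl d u hu).1 m x hx a b r s hab had hw

theorem ks_word (hG : S_GBR) (hl : 3 ≤ l) {d : ZMod l} (w : List (Lt4 l)) :
    (∀ u ∈ w, u.1 ≠ u.2.1) → ∀ (m : ZMod l → ℤ) (x : T), KS C d m x →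
      KS C d (m + eWt w) (eOp C.e w x) := by
  induction w with
  | nil =>
    intro _ m x hx
    simpa [eWt, eOp] using hx
  | cons p w ih =>
    intro hw m x hx
    obtain ⟨a, b, r, s⟩ := p
    have h1 := ih (fun u hu => hw u (List.mem_cons_of_mem _ hu)) m x hx
    have hab : a ≠ b := hw (a, b, r, s) (List.mem_cons_self ..)
    have h2 := ks_stable C hG hl h1 hab r s
    have e1 : m + eWt ((a, b, r, s) :: w) = m + eWt w + sg a - sg b := by
      simp only [eWt, List.map_cons, List.sum_cons]
      abel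
    have e2 : eOp C.e ((a, b, r, s) :: w) x = C.e a b r s (eOp C.e w x) := by
      simp only [eOp, List.map_cons, List.prod_cons, Module.End.mul_apply]
    rw [e1, e2]
    exact h2

theorem isTy_mid {c d : ZMod l} (hcd : c ≠ d) (k : ℕ) (hk : k ≤ n) :
    IsTy n (nd n c + (k : ℤ) • (sg d - sg c)) := by
  refine ⟨fun x => ?_, ?_⟩
  · simp only [Pi.add_apply, Pi.smul_apply, Pi.sub_apply, nd, sg, smul_eq_mul]
    by_cases hxc : x = c
    · subst hxc
      simp only [if_true, if_neg hcd]
      have : (k : ℤ) ≤ n := by exact_mod_cast hk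
      linarith
    · simp only [if_neg hxc]
      split_ifs
      · simp
      · simp
  · simp only [Pi.add_apply, Pi.smul_apply, Pi.sub_apply, nd, sg, smul_eq_mul]
    rw [Finset.sum_add_distrib, ← Finset.mul_sum, Finset.sum_sub_distrib]
    simp

theorem pow_ch {c d : ZMod l} (hcd : c ≠ d) (k : ℕ) (hk : k ≤ n) :
    dOp C d (List.replicate k (c, 0, 0)) (C.ch (nd n c)) =
      ((k.factorial : ℕ) : ℂ) • C.ch (nd n c + (k : ℤ) • (sg d - sg c)) := by
  induction k with
  | zero => simp [dOp]
  | succ k ih =>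
    have h1 := ih (by omega)
    have e1 : dOp C d (List.replicate (k + 1) (c, 0, 0)) (C.ch (nd n c)) =
        C.e d c 0 0 (dOp C d (List.replicate k (c, 0, 0)) (C.ch (nd n c))) := by
      simp only [dOp, List.replicate_succ, List.map_cons, List.prod_cons, Module.End.mul_apply]
    have e2 : nd n c + (k : ℤ) • (sg d - sg c) + sg d - sg c =
        nd n c + ((k + 1 : ℕ) : ℤ) • (sg d - sg c) := by
      push_cast
      rw [add_smul, one_smul]
      abel
    have hd : (nd n c + (k : ℤ) • (sg d - sg c)) d = (k : ℤ) := by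
      simp only [Pi.add_apply, Pi.smul_apply, Pi.sub_apply, nd, sg, smul_eq_mul, if_true,
        if_neg (Ne.symm hcd)]
      ring
    rw [e1, h1, map_smul, C.e_ch d c 0 0 _ (Ne.symm hcd) (isTy_mid hcd k (by omega))
      (by rw [e2]; exact isTy_mid hcd (k + 1) hk), e2, hd, smul_smul]
    congr 1
    rw [Nat.factorial_succ]
    push_cast
    ring

theorem ks_corner {c d : ZMod l} {y : T} (hy : KS C d (nd n c) y) : y = 0 := by
  by_cases hcd : c = d
  · subst hcd
    exact ks_nd C hy
  have := C.fd
  have hty : IsTy n (nd n c) := by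
    have := isTy_mid (n := n) hcd 0 (Nat.zero_le _)
    simpa using this
  have hmem := C.ch_mem (nd n c) hty
  -- `y = t • ch`
  obtain ⟨t, ht⟩ : ∃ t : ℂ, y = t • C.ch (nd n c) := by
    have h1 := (finrank_le_one_iff (K := ℂ) (V := C.gr (nd n c))).1 (C.one c)
    obtain ⟨v, hv⟩ := h1
    obtain ⟨α, hα⟩ := hv ⟨C.ch (nd n c), hmem⟩
    obtain ⟨β, hβ⟩ := hv ⟨y, hy.1⟩
    have hα' : α • (v : T) = C.ch (nd n c) := congrArg Subtype.val hα
    have hβ' : β • (v : T) = y := congrArg Subtype.val hβ
    have hα0 : α ≠ 0 := by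
      rintro rfl
      rw [zero_smul] at hα'
      exact C.ch_ne c hα'.symm
    refine ⟨β / α, ?_⟩
    rw [← hα', smul_smul, div_mul_cancel₀ _ hα0, hβ']
  have hend : nd n c + (n : ℤ) • (sg d - sg c) = nd n d := by
    funext x
    simp only [Pi.add_apply, Pi.smul_apply, Pi.sub_apply, nd, sg, smul_eq_mul]
    split_ifs <;> simp
  have hz := hy.2 (List.replicate n (c, 0, 0)) (by
    intro a ha
    rw [List.eq_of_mem_replicate ha]
    exact hcd) (by
    rw [← hend]
    congr 1
    simp [dWt])
  rw [ht, map_smul, pow_ch C hcd n le_rfl, hend, smul_smul] at hz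
  rcases smul_eq_zero.1 hz with h | h
  · rcases mul_eq_zero.1 h with h | h
    · rw [ht, h, zero_smul]
    · exact absurd (Nat.cast_eq_zero.1 h) (Nat.factorial_ne_zero n)
  · exact absurd h (C.ch_ne d)

end

end Pool.Agent.Helper89.SQ.Spn

namespace Pool.Agent.Helper89.SQ

open Pool.Agent.Helper19.SQ

/-- SPN. -/
theorem s_spn (hG : S_GBR) : S_SPN := by
  intro l n _ T _ _ C hl d m x hx hu
  have hK : Spn.KS C d m x := ⟨hx, hu⟩
  refine C.nondeg m x hx fun w c hw hwt => ?_
  have h := Spn.ks_word C hG hl w hw m x hK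
  rw [hwt] at h
  exact Spn.ks_corner C h

end Pool.Agent.Helper89.SQ
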