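import Pool.Agent.Helper41.SQ.GoalsN

/-!
# Project SQ (MP_bb32d1_al), packet SQN-OMF-SG1
-/

set_option autoImplicit false

namespace Pool.Agent.Helper89.SQN

noncomputable section

open Matrix Pool.Agent.Helper19.SQ Pool.Agent.Helper34.SQ Pool.Agent.Helper41.SQ
open Pool.Agent.Helper28.SQ (fnl fnl_apply capA capB)

/-- **Packet SQN-OMF** -/
theorem n_omf : Pool.Agent.Helper41.SQ.S_OMF := by
  intro A _ _ ι _ _ l C ζ c m σ
  have hm : m + al c - al c = m := by abel
  have hm' : m - al c + al c = m := by abel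
  constructor
  · intro hσ
    obtain ⟨r1, r2, r3, r4, r5⟩ := Helper54.SQ.rot C.ε C.δ C.φ (fun i => (C.θ i : ℂ)⁻¹)
      (fun i => inv_ne_zero (C.θ i).ne_zero)
      (fun a i j => by rw [inv_inv]; exact C.φε a i j) (C.e (m + al c)) (C.e m)
      (C.e_cen (m + al c)) ζ σ hσ.t1
      (fun b y => by rw [inv_inv]; exact hσ.t2 b y) hσ.t3 hσ.t4
    refine ⟨⟨r1, ?_, r3, ?_⟩, r5⟩
    · intro b y
      have := r2 b y
      rwa [inv_inv] at this
    · rw [hm]
      exact r4
  · intro hσ
    obtain ⟨r1, r2, r3, r4, r5⟩ := Helper54.SQ.rot C.δ C.ε C.φ (fun i => (C.θ i : ℂ))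
      (fun i => (C.θ i).ne_zero)
      C.φδ (C.e (m - al c)) (C.e m) (C.e_cen (m - al c)) ζ σ hσ.t1 hσ.t2 hσ.t3 hσ.t4
    refine ⟨⟨r1, r2, r3, ?_⟩, r5⟩
    rw [hm']
    exact r4

/-- **Packet SQN-SG1** -/
theorem n_sg1 : Pool.Agent.Helper41.SQ.S_SG1 := by
  intro A _ _ ι _ _ l C ζ c m τ hτ
  constructor
  · refine ⟨?_, ?_, ?_, ?_⟩
    · rintro a b ⟨j, i⟩
      rw [act_apply, Fintype.sum_prod_type]
      simp only [fnl_apply, D1, Matrix.of_apply, mul_assoc]
      simp only [← map_sum, capA]
      rw [map_sum]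
      simp only [hτ.tr (C.ε a _ j)]
      rw [← map_sum, ← Matrix.mul_apply, ← map_mul, mul_assoc b, C.e_cen]
    · rintro b ⟨j, i⟩
      simp only [fnl_apply]
      have h1 : C.φ b * C.e (m + al c) = C.φ (b * C.e (m + al c)) := by
        rw [map_mul, C.φe]
      rw [h1, C.φε, map_smul, hτ.eq, smul_eq_mul]
      have hi := (C.θ i).ne_zero
      have hj := (C.θ j).ne_zero
      field_simp
    · rintro b ⟨j, i⟩
      simp only [fnl_apply]
      rw [mul_assoc, C.e_idem]
    · funext y
      obtain ⟨j, i⟩ := y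
      ext b
      rw [act_apply, Fintype.sum_prod_type]
      rw [Finset.sum_eq_single j]
      · simp only [fnl_apply, X1, Matrix.of_apply, if_true, mul_assoc, add_sub_cancel_right]
        rw [← map_sum, capA, C.e_cen, hτ.blk]
      · intro j' _ hj'
        refine Finset.sum_eq_zero fun k _ => ?_
        simp only [X1, Matrix.of_apply]
        rw [if_neg hj', zero_mul, map_zero]
      · intro h; exact absurd (Finset.mem_univ _) h
  · have hw : ∀ (x z : A) (i j : ι), ∑ i', C.w i' * τ (C.δ (C.ε x i' i * z) i' j) =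
        C.w i * τ (x * C.δ z i j) := by
      intro x z i j
      have := congrArg τ (capB C x z i j)
      rw [map_sum, map_smul] at this
      simpa only [map_smul, smul_eq_mul] using this
    refine ⟨?_, ?_, ?_, ?_⟩
    · rintro a b ⟨j, i⟩
      rw [act_apply, Fintype.sum_prod_type]
      simp only [LinearMap.smul_apply, smul_eq_mul, fnl_apply, D2, Matrix.of_apply, mul_assoc]
      simp only [hw]
      rw [← Finset.mul_sum]
      simp only [hτ.tr (C.δ a _ j)]
      rw [← map_sum, ← Matrix.mul_apply, ← map_mul, mul_assoc b, C.e_cen]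
    · rintro b ⟨j, i⟩
      simp only [LinearMap.smul_apply, smul_eq_mul, fnl_apply]
      have h1 : C.φ b * C.e (m - al c) = C.φ (b * C.e (m - al c)) := by
        rw [map_mul, C.φe]
      rw [h1, C.φδ, map_smul, hτ.eq, smul_eq_mul]
      have hi := (C.θ i).ne_zero
      have hj := (C.θ j).ne_zero
      field_simp
    · rintro b ⟨j, i⟩
      simp only [LinearMap.smul_apply, smul_eq_mul, fnl_apply]
      rw [mul_assoc, C.e_idem]
    · funext y
      obtain ⟨j, i⟩ := y
      ext b
      rw [act_apply, Fintype.sum_prod_type]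
      rw [Finset.sum_eq_single j]
      · simp only [LinearMap.smul_apply, smul_eq_mul, fnl_apply, X1, Matrix.of_apply, if_true,
          mul_assoc, sub_add_cancel]
        rw [hw, C.e_cen, hτ.blk]
      · intro j' _ hj'
        refine Finset.sum_eq_zero fun k _ => ?_
        simp only [X1, Matrix.of_apply]
        rw [if_neg hj', zero_mul, map_zero]
      · intro h; exact absurd (Finset.mem_univ _) h

end

end Pool.Agent.Helper89.SQN
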