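import Pool.Agent.Helper4.SQ.GoalsR
import Pool.Agent.Helper53.SQ.PC

/-!
Project SQ (MP_bb32d1_al), packet PCX.
-/

set_option autoImplicit false

namespace Pool.Agent.Helper89.SQ

noncomputable section

open Pool.Agent.Helper19.SQ Pool.Agent.Helper41.SQ Pool.Agent.Helper4.SQ Pool.Agent.Helper53.SQ
open Polynomial

/-- the local form of `p_c`. -/
theorem pcx_loc {l : ℕ} [NeZero l] {q : ℂ} (h : IsPrimitiveRoot q l) (hodd : Odd l) (K : ℕ)
    (p : ZMod l → ℂ[X])
    (h1 : ∀ c c', (p c).eval (qz q (2 * c')) = if c = c' then 1 else 0)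
    (h2 : ∀ c, (X ^ l - 1 : ℂ[X]) ^ K ∣ p c ^ 2 - p c) (c d : ZMod l) :
    (X - C (qz q (2 * d))) ^ K ∣ p c - (if c = d then 1 else 0) := by
  have h3 : (X - C (qz q (2 * d)) : ℂ[X]) ^ K ∣ p c * (p c - 1) := by
    have e : p c * (p c - 1) = p c ^ 2 - p c := by ring
    rw [e]
    refine Dvd.dvd.trans ?_ (h2 c)
    rw [xl_prod h hodd, ← Finset.prod_pow]
    exact Finset.dvd_prod_of_mem (fun c' : ZMod l => (X - C (qz q (2 * c')) : ℂ[X]) ^ K)
      (Finset.mem_univ d)
  have h4 : ∀ f : ℂ[X], f.eval (qz q (2 * d)) ≠ 0 →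
      IsCoprime ((X - C (qz q (2 * d)) : ℂ[X]) ^ K) f := by
    intro f hf
    refine IsCoprime.pow_left ?_
    rw [(irreducible_X_sub_C (qz q (2 * d))).coprime_iff_not_dvd, dvd_iff_isRoot]
    exact hf
  by_cases hc : c = d
  · rw [if_pos hc]
    refine (h4 (p c) ?_).dvd_of_dvd_mul_left h3
    rw [h1, if_pos hc]
    exact one_ne_zero
  · rw [if_neg hc, sub_zero]
    refine (h4 (p c - 1) ?_).dvd_of_dvd_mul_right h3
    rw [eval_sub, h1, if_neg hc]
    simp

/-- substitution in the local form. -/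
theorem pcx_comp {K : ℕ} {f e : ℂ[X]} {a b t : ℂ} (hab : a = t * b)
    (hf : (X - C a) ^ K ∣ f - e) (he : e.comp (C t * X) = e) :
    (X - C b) ^ K ∣ f.comp (C t * X) - e := by
  obtain ⟨g, hg⟩ := hf
  have h1 := congrArg (fun F : ℂ[X] => F.comp (C t * X)) hg
  simp only [sub_comp, mul_comp, pow_comp, X_comp, C_comp, he] at h1
  rw [h1]
  have h2 : (C t * X - C a : ℂ[X]) = C t * (X - C b) := by
    rw [hab, C_mul]
    ring
  rw [h2, mul_pow]
  exact ⟨C t ^ K * g.comp (C t * X), by ring⟩

/-- **Packet PCX** -/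
theorem sPCX : S_PCX := by
  intro l _ q h hodd K p h1 h2
  have hl := h.pow_eq_one
  have hq : q ≠ 0 := by
    rintro rfl
    rw [zero_pow (NeZero.ne l)] at hl
    exact zero_ne_one hl
  have hb := pcx_loc h hodd K p h1 h2
  have hs : ∀ d : ZMod l, qz q (2 * (d + 1)) = q ^ 2 * qz q (2 * d) := by
    intro d
    have e : (2 * (d + 1) : ZMod l) = ((2 : ℕ) : ZMod l) + 2 * d := by
      push_cast
      ring
    rw [e, qz_add hl, qz_nat hl]
  refine ⟨fun c c' => ?_, ?_, fun c => ?_, fun c => ?_, fun c => ?_⟩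
  · refine dvd_all h hodd K _ fun d => ?_
    obtain ⟨A, hA⟩ := hb c d
    obtain ⟨B, hB⟩ := hb c' d
    by_cases hcd : c = d
    · by_cases hcd' : c' = d
      · have hcc : c = c' := hcd.trans hcd'.symm
        rw [if_pos hcc]
        rw [if_pos hcd'] at hB
        exact ⟨p c * B, by linear_combination (p c) * hB⟩
      · have hcc : c ≠ c' := fun e => hcd' (e ▸ hcd)
        rw [if_neg hcc]
        rw [if_neg hcd'] at hB
        exact ⟨p c * B, by linear_combination (p c) * hB⟩
    · rw [if_neg hcd] at hA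
      split_ifs
      · exact ⟨A * p c' - A, by linear_combination (p c' - 1) * hA⟩
      · exact ⟨A * p c', by linear_combination (p c') * hA⟩
  · refine dvd_all h hodd K _ fun d => ?_
    have e : (∑ c, p c) - 1 = ∑ c, (p c - if c = d then 1 else 0) := by
      rw [Finset.sum_sub_distrib, Finset.sum_ite_eq' Finset.univ d fun _ => (1 : ℂ[X])]
      simp
    rw [e]
    exact Finset.dvd_sum fun c _ => hb c d
  · refine dvd_all h hodd K _ fun d => ?_
    by_cases hcd : c = d
    · rw [hcd]
      exact Dvd.intro _ rfl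
    · have := hb c d
      rw [if_neg hcd, sub_zero] at this
      exact dvd_mul_of_dvd_right this _
  · refine dvd_all h hodd K _ fun d => ?_
    have h3 := pcx_comp (hs d) (hb c (d + 1)) (by split_ifs <;> simp)
    have h4 := hb (c - 1) d
    have e : (c = d + 1) = (c - 1 = d) := by rw [sub_eq_iff_eq_add]
    simp only [e] at h3
    have := dvd_sub h3 h4
    rwa [sub_sub_sub_cancel_right] at this
  · refine dvd_all h hodd K _ fun d => ?_
    have hs' : qz q (2 * (d - 1)) = q⁻¹ ^ 2 * qz q (2 * d) := by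
      have := hs (d - 1)
      rw [sub_add_cancel] at this
      rw [this]
      field_simp
    have h3 := pcx_comp hs' (hb c (d - 1)) (by split_ifs <;> simp)
    have h4 := hb (c + 1) d
    have e : (c = d - 1) = (c + 1 = d) := by rw [eq_sub_iff_add_eq]
    simp only [e] at h3
    have := dvd_sub h3 h4
    rwa [sub_sub_sub_cancel_right] at this

end

end Pool.Agent.Helper89.SQ
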